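import Mathlib

set_option autoImplicit false

/-!
# Clique number of xor-powers of Kneser graphs: the exponent for `ℓ = 5` is `3`

We label the seven points of the Fano plane by five blocks in such a way that every point and
every line meets an even number of the blocks.  Over `GF(2^m)` this gives a clique with
`(2^m)^3` vertices in the fifth xor-power of `KG(k * 2^m, k)` for every `k ≥ 5`.
-/

namespace Pool.Agent.Results.MP_e3e024_co.CubicGrowth

open Filter Asymptotics

/-- The `k`-element subsets of `[n]`. -/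
abbrev KSet (n k : ℕ) : Type := {s : Finset (Fin n) // s.card = k}

/-- The `ℓ`-th xor-power of the Kneser graph `KG(n, k)`: vertices are the `ℓ`-tuples of
`k`-subsets, and two distinct tuples are adjacent iff they are disjoint in an odd number of
coordinates. -/
def xorKneser (ℓ n k : ℕ) : SimpleGraph (Fin ℓ → KSet n k) where
  Adj X Y := X ≠ Y ∧ Odd (Finset.univ.filter (fun i => Disjoint (X i).1 (Y i).1)).card
  symm := ⟨fun X Y h => ⟨h.1.symm, by simpa only [disjoint_comm] using h.2⟩⟩
  loopless := ⟨fun X h => h.1 rfl⟩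

/-- `f_ℓ(n, k)`: the clique number of the `ℓ`-th xor-power of `KG(n, k)`. -/
noncomputable def f (ℓ n k : ℕ) : ℕ := (xorKneser ℓ n k).cliqueNum

/-- `e(ℓ) = ⌊log₂ (ℓ + 1)⌋`. -/
def e (ℓ : ℕ) : ℕ := Nat.log 2 (ℓ + 1)

/-- The statement of Q1: for every `ℓ ≥ 1`, for all sufficiently large fixed `k`,
`f_ℓ(n, k) = Θ(n ^ e(ℓ))` as `n → ∞`. -/
def Q1 : Prop :=
  ∀ ℓ : ℕ, 1 ≤ ℓ → ∃ k₀ : ℕ, ∀ k : ℕ, k₀ ≤ k →
    (fun n : ℕ => (f ℓ n k : ℝ)) =Θ[atTop] (fun n : ℕ => (n : ℝ) ^ e ℓ)

/-! ### The seven linear forms and the five blocks -/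

section Forms

variable {F : Type} [Field F]

/-- The seven nonzero linear forms with coefficients in `{0, 1}` in three variables. -/
def L (x : Fin 7) (u : F × F × F) : F :=
  ![u.1, u.2.1, u.2.2, u.1 + u.2.1, u.1 + u.2.2, u.2.1 + u.2.2, u.1 + u.2.1 + u.2.2] x

/-- The five blocks (each row lists the elements of one block, with repetitions). -/
def T : Fin 5 → Fin 5 → Fin 7 :=
  ![![4, 4, 4, 4, 4], ![6, 1, 1, 1, 1], ![0, 3, 5, 5, 5], ![0, 4, 2, 2, 2], ![3, 6, 1, 5, 2]]

theorem parity (z0 z1 z2 z3 z4 z5 z6 : Bool)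
    (h013 : (z0 && z1) = true → z3 = true) (h031 : (z0 && z3) = true → z1 = true)
    (h130 : (z1 && z3) = true → z0 = true)
    (h024 : (z0 && z2) = true → z4 = true) (h042 : (z0 && z4) = true → z2 = true)
    (h240 : (z2 && z4) = true → z0 = true)
    (h125 : (z1 && z2) = true → z5 = true) (h152 : (z1 && z5) = true → z2 = true)
    (h251 : (z2 && z5) = true → z1 = true)
    (h326 : (z3 && z2) = true → z6 = true) (h362 : (z3 && z6) = true → z2 = true)
    (h263 : (z2 && z6) = true → z3 = true)
    (h416 : (z4 && z1) = true → z6 = true) (h461 : (z4 && z6) = true → z1 = true)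
    (h164 : (z1 && z6) = true → z4 = true)
    (h506 : (z5 && z0) = true → z6 = true) (h560 : (z5 && z6) = true → z0 = true)
    (h065 : (z0 && z6) = true → z5 = true)
    (h345 : (z3 && z4) = true → z5 = true) (h354 : (z3 && z5) = true → z4 = true)
    (h453 : (z4 && z5) = true → z3 = true)
    (hne : (z0 && z1 && z2) = false) :
    Odd (Finset.univ.filter
      (fun i : Fin 5 => ∀ t : Fin 5, (![z0, z1, z2, z3, z4, z5, z6] (T i t)) = false)).card := by
  cases z0 <;> cases z1 <;> cases z2 <;> cases z3 <;> cases z4 <;> cases z5 <;> cases z6 <;>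
  first
    | exact absurd hne (by decide)
    | exact absurd (h013 rfl) (by decide)
    | exact absurd (h031 rfl) (by decide)
    | exact absurd (h130 rfl) (by decide)
    | exact absurd (h024 rfl) (by decide)
    | exact absurd (h042 rfl) (by decide)
    | exact absurd (h240 rfl) (by decide)
    | exact absurd (h125 rfl) (by decide)
    | exact absurd (h152 rfl) (by decide)
    | exact absurd (h251 rfl) (by decide)
    | exact absurd (h326 rfl) (by decide)
    | exact absurd (h362 rfl) (by decide)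
    | exact absurd (h263 rfl) (by decide)
    | exact absurd (h416 rfl) (by decide)
    | exact absurd (h461 rfl) (by decide)
    | exact absurd (h164 rfl) (by decide)
    | exact absurd (h506 rfl) (by decide)
    | exact absurd (h560 rfl) (by decide)
    | exact absurd (h065 rfl) (by decide)
    | exact absurd (h345 rfl) (by decide)
    | exact absurd (h354 rfl) (by decide)
    | exact absurd (h453 rfl) (by decide)
    | decide

theorem parity_forms [CharP F 2] [DecidableEq F] (u v : F × F × F) (huv : u ≠ v) :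
    Odd (Finset.univ.filter (fun i : Fin 5 => ∀ t : Fin 5, L (T i t) u ≠ L (T i t) v)).card := by
  obtain ⟨a, b, c⟩ := u
  obtain ⟨a', b', c'⟩ := v
  have two : ∀ x : F, x + x = 0 := fun x => CharTwo.add_self_eq_zero x
  have key := parity (decide (a = a')) (decide (b = b')) (decide (c = c'))
    (decide (a + b = a' + b')) (decide (a + c = a' + c')) (decide (b + c = b' + c'))
    (decide (a + b + c = a' + b' + c'))
  simp only [Bool.and_eq_true, decide_eq_true_eq, Bool.and_eq_false_imp, decide_eq_false_iff_not,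
    and_imp] at key
  have h := key (by rintro rfl rfl; rfl) (by rintro rfl h; exact add_left_cancel h)
    (by rintro rfl h; exact add_right_cancel h)
    (by rintro rfl rfl; rfl) (by rintro rfl h; exact add_left_cancel h)
    (by rintro rfl h; exact add_right_cancel h)
    (by rintro rfl rfl; rfl) (by rintro rfl h; exact add_left_cancel h)
    (by rintro rfl h; exact add_right_cancel h)
    (by intro h1 h2; rw [h1, h2]) (by intro h1 h2; rw [h1] at h2; exact add_left_cancel h2)
    (by intro h1 h2; rw [h1] at h2; exact add_right_cancel h2)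
    (by intro h1 h2; linear_combination h1 + h2) (by intro h1 h2; linear_combination h2 - h1)
    (by intro h1 h2; linear_combination h2 - h1)
    (by intro h1 h2; linear_combination h1 + h2) (by intro h1 h2; linear_combination h2 - h1)
    (by intro h1 h2; linear_combination h2 - h1)
    (by intro h1 h2; linear_combination h1 + h2 - two a + two a')
    (by intro h1 h2; linear_combination h1 + h2 - two b + two b')
    (by intro h1 h2; linear_combination h1 + h2 - two c + two c')
    (by rintro rfl rfl h; exact huv (by rw [h]))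
  convert h using 3 with i
  refine forall_congr' fun t => ?_
  generalize T i t = x
  fin_cases x <;> simp [L]

end Forms

/-! ### The clique -/

section Clique

variable {F : Type} [Field F] [Fintype F] [CharP F 2] [DecidableEq F]

/-- The element of `Fin 7` used in position `j` of block `i`. -/
def φ (k : ℕ) (i : Fin 5) (j : Fin k) : Fin 7 := T i ⟨min j.1 4, by omega⟩

theorem forall_φ {k : ℕ} (hk : 5 ≤ k) (i : Fin 5) (P : Fin 7 → Prop) :
    (∀ j : Fin k, P (φ k i j)) ↔ ∀ t : Fin 5, P (T i t) := by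
  constructor
  · intro h t
    have := h ⟨t.1, by omega⟩
    unfold φ at this
    have e1 : (⟨min t.1 4, by omega⟩ : Fin 5) = t := by
      apply Fin.ext
      show min t.1 4 = t.1
      omega
    simpa only [e1] using this
  · intro h j
    exact h _

/-- The `k`-set in coordinate `i` attached to the vector `u`. -/
def S {n k : ℕ} (ι : Fin k × F ↪ Fin n) (i : Fin 5) (u : F × F × F) : KSet n k :=
  ⟨(Finset.univ : Finset (Fin k)).map
    ⟨fun j => ι (j, L (φ k i j) u), fun j j' h => by
      have := ι.injective h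
      exact (Prod.mk.inj this).1⟩, by simp⟩

theorem disjoint_S {n k : ℕ} (ι : Fin k × F ↪ Fin n) (i : Fin 5) (u v : F × F × F) :
    Disjoint (S ι i u).1 (S ι i v).1 ↔ ∀ j : Fin k, L (φ k i j) u ≠ L (φ k i j) v := by
  constructor
  · intro h j hj
    refine (Finset.disjoint_left.1 h : _) (a := ι (j, L (φ k i j) u)) ?_ ?_
    · simp only [S, Finset.mem_map, Finset.mem_univ, true_and]
      exact ⟨j, rfl⟩
    · simp only [S, Finset.mem_map, Finset.mem_univ, true_and]
      exact ⟨j, by rw [hj]; rfl⟩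
  · intro h
    refine Finset.disjoint_left.2 fun x hx hx' => ?_
    simp only [S, Finset.mem_map, Finset.mem_univ, true_and]
      at hx hx'
    obtain ⟨j, hj⟩ := hx
    obtain ⟨j', hj'⟩ := hx'
    have e2 := Prod.mk.inj (ι.injective (hj.trans hj'.symm))
    obtain ⟨rfl, e3⟩ := e2
    exact h j e3

theorem odd_disjoint {n k : ℕ} (hk : 5 ≤ k) (ι : Fin k × F ↪ Fin n) (u v : F × F × F)
    (huv : u ≠ v) :
    Odd (Finset.univ.filter (fun i => Disjoint (S ι i u).1 (S ι i v).1)).card := by
  have h := parity_forms u v huv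
  convert h using 3 with i
  rw [disjoint_S]
  exact forall_φ hk i (fun x => L x u ≠ L x v)

theorem clique_bound {n k : ℕ} (hk : 5 ≤ k) (hn : k * Fintype.card F ≤ n) :
    Fintype.card F ^ 3 ≤ f 5 n k := by
  classical
  have hc : Fintype.card (Fin k × F) ≤ Fintype.card (Fin n) := by simpa using hn
  obtain ⟨ι⟩ := Function.Embedding.nonempty_of_card_le hc
  have hinj : Function.Injective (fun u : F × F × F => fun i => S ι i u) := by
    intro u v h
    by_contra huv
    have := odd_disjoint hk ι u v huv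
    have h0 : (Finset.univ.filter (fun i => Disjoint (S ι i u).1 (S ι i v).1)) = ∅ := by
      apply Finset.filter_eq_empty_iff.2
      intro i _ hd
      have hi : S ι i u = S ι i v := congrFun h i
      rw [hi] at hd
      have he : (S ι i v).1 = ∅ := by simpa using hd
      have hcard := (S ι i v).2
      rw [he] at hcard
      simp at hcard
      omega
    rw [h0] at this
    simp at this
  have hcl : (xorKneser 5 n k).IsClique
      ((Finset.univ.map ⟨fun u : F × F × F => fun i => S ι i u, hinj⟩ : Finset _) :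
        Set (Fin 5 → KSet n k)) := by
    intro X hX Y hY hXY
    simp only [Finset.coe_map, Function.Embedding.coeFn_mk, Finset.coe_univ, Set.image_univ,
      Set.mem_range] at hX hY
    obtain ⟨u, rfl⟩ := hX
    obtain ⟨v, rfl⟩ := hY
    refine ⟨hXY, odd_disjoint hk ι u v ?_⟩
    rintro rfl
    exact hXY rfl
  have hle := SimpleGraph.IsClique.card_le_cliqueNum (tc := hcl)
  rw [Finset.card_map, Finset.card_univ] at hle
  simp only [Fintype.card_prod] at hle
  unfold f
  calc Fintype.card F ^ 3 = Fintype.card F * (Fintype.card F * Fintype.card F) := by ring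
    _ ≤ _ := hle

end Clique

theorem cubic (k n : ℕ) (hk : 5 ≤ k) (hn : 2 * k ≤ n) : n ^ 3 ≤ (2 * k) ^ 3 * f 5 n k := by
  classical
  set m := Nat.log 2 (n / k) with hm
  have hk0 : 0 < k := by omega
  have h2 : 2 ≤ n / k := (Nat.le_div_iff_mul_le hk0).2 hn
  have hm0 : m ≠ 0 := by
    have : 0 < m := Nat.log_pos (by norm_num) h2
    omega
  have hlow : 2 ^ m ≤ n / k := Nat.pow_log_le_self 2 (by omega)
  have hup : n / k < 2 ^ (m + 1) := Nat.lt_pow_succ_log_self (by norm_num) _
  have : Fact (Nat.Prime 2) := ⟨Nat.prime_two⟩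
  have : Fintype (GaloisField 2 m) := Fintype.ofFinite _
  have hcard : Fintype.card (GaloisField 2 m) = 2 ^ m := by
    rw [← Nat.card_eq_fintype_card]
    exact GaloisField.card 2 m hm0
  have hb := clique_bound (F := GaloisField 2 m) (n := n) (k := k) hk (by
    rw [hcard]
    calc k * 2 ^ m ≤ k * (n / k) := Nat.mul_le_mul_left _ hlow
      _ ≤ n := Nat.mul_div_le n k)
  rw [hcard] at hb
  have hn' : n ≤ 2 * k * 2 ^ m := by
    have h3 : n < k * (n / k + 1) := by
      have := Nat.lt_mul_div_succ n hk0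
      simpa [Nat.mul_comm] using this
    have h4 : k * (n / k + 1) ≤ k * 2 ^ (m + 1) := Nat.mul_le_mul_left _ hup
    calc n ≤ k * 2 ^ (m + 1) := by omega
      _ = 2 * k * 2 ^ m := by ring
  calc n ^ 3 ≤ (2 * k * 2 ^ m) ^ 3 := Nat.pow_le_pow_left hn' 3
    _ = (2 * k) ^ 3 * (2 ^ m) ^ 3 := by ring
    _ ≤ (2 * k) ^ 3 * f 5 n k := Nat.mul_le_mul_left _ hb

theorem e_five : e 5 = 2 := by
  unfold e
  rw [Nat.log_eq_iff] <;> norm_num

theorem unbounded (k : ℕ) (hk : 5 ≤ k) (C : ℝ) :
    ∀ᶠ n : ℕ in atTop, C * (n : ℝ) ^ e 5 < (f 5 n k : ℝ) := by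
  rw [e_five]
  have hkpos : (0 : ℝ) < (2 * k : ℝ) ^ 3 := by
    have : (0 : ℝ) < k := by exact_mod_cast (by omega : 0 < k)
    positivity
  obtain ⟨N, hN⟩ := exists_nat_gt (C * (2 * k : ℝ) ^ 3)
  filter_upwards [eventually_ge_atTop (max N (max (2 * k) 1))] with n hn
  have hn1 : N ≤ n := le_trans (le_max_left _ _) hn
  have hn2 : 2 * k ≤ n := le_trans (le_trans (le_max_left _ _) (le_max_right _ _)) hn
  have hn3 : 1 ≤ n := le_trans (le_trans (le_max_right _ _) (le_max_right _ _)) hn
  have h := cubic k n hk hn2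
  have h' : (n : ℝ) ^ 3 ≤ (2 * k : ℝ) ^ 3 * (f 5 n k : ℝ) := by exact_mod_cast h
  have hnpos : (0 : ℝ) < (n : ℝ) ^ 2 := by
    have : (0 : ℝ) < n := by exact_mod_cast hn3
    positivity
  have hCn : C * (2 * k : ℝ) ^ 3 < n := lt_of_lt_of_le hN (by exact_mod_cast hn1)
  by_contra hcon
  push Not at hcon
  have h5 : (n : ℝ) ^ 3 ≤ (2 * k : ℝ) ^ 3 * (C * (n : ℝ) ^ 2) :=
    h'.trans (mul_le_mul_of_nonneg_left hcon hkpos.le)
  have h6 : (C * (2 * k : ℝ) ^ 3) * (n : ℝ) ^ 2 < n * (n : ℝ) ^ 2 :=
    mul_lt_mul_of_pos_right hCn hnpos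
  nlinarith [h5, h6]

/-- **Negative answer to Q1.**  For `ℓ = 5`, where `e(5) = 2`, we have
`f_5(n, k) ≥ (n / (2k)) ^ 3` for all `k ≥ 5` and `n ≥ 2 k`; in particular
`f_5(n, k) / n ^ e(5)` tends to infinity for every fixed `k ≥ 5`, and Q1 is false. -/
theorem result :
    (¬ Q1) ∧ e 5 = 2 ∧
    (∀ k n : ℕ, 5 ≤ k → 2 * k ≤ n → n ^ 3 ≤ (2 * k) ^ 3 * f 5 n k) ∧
    (∀ k : ℕ, 5 ≤ k → ∀ C : ℝ, ∀ᶠ n : ℕ in atTop, C * (n : ℝ) ^ e 5 < (f 5 n k : ℝ)) := by
  refine ⟨?_, e_five, cubic, unbounded⟩
  intro h
  obtain ⟨k₀, hk₀⟩ := h 5 (by norm_num)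
  have hth := hk₀ (max k₀ 5) (le_max_left _ _)
  obtain ⟨C, hC⟩ := hth.1.bound
  have hu := unbounded (max k₀ 5) (le_max_right _ _) C
  obtain ⟨n, h1, h2⟩ := (hC.and hu).exists
  rw [Real.norm_of_nonneg (by positivity), Real.norm_of_nonneg (by positivity)] at h1
  exact absurd h1 (not_le.2 h2)

end Pool.Agent.Results.MP_e3e024_co.CubicGrowth
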