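import Mathlib

/-!
# MP_e3e024_co : the clique number of xor-powers of Kneser graphs

`f ℓ n k = ω(KG(n,k)^ℓ)`.  We disprove the conjecture
`f ℓ n k = Θ(n ^ ⌊log₂ (ℓ+1)⌋)` (for every `ℓ` and every large fixed `k`):
already for `ℓ = 5` and EVERY `k ≥ 3` one has `f 5 n k ≥ (n / (2k))^3` for all `n`,
while `⌊log₂ 6⌋ = 2`.  (This matches the known upper bound `8 n^3`.)

The construction colours the seven points of the Fano plane by subsets of
the five coordinates in such a way that every point and every line covers an even number of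
coordinates, and the whole plane covers all five.
-/

namespace Pool.Agent.Results.MP_e3e024_co.XorKneserCubic

open Finset

/-- The Kneser graph `KG(n,k)`: vertices are the `k`-element subsets of `Fin n`, two (distinct)
vertices being adjacent when they are disjoint. -/
def kneser (n k : ℕ) : SimpleGraph {X : Finset (Fin n) // X.card = k} where
  Adj X Y := X ≠ Y ∧ Disjoint X.1 Y.1
  symm := ⟨fun _ _ h => ⟨h.1.symm, h.2.symm⟩⟩
  loopless := ⟨fun _ h => h.1 rfl⟩

/-- The `ℓ`-th xor-power of a graph: the vertices are the `ℓ`-tuples of vertices, two tuples being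
adjacent when they are adjacent in an odd number of coordinates. -/
def xorPow {V : Type*} (G : SimpleGraph V) (ℓ : ℕ) : SimpleGraph (Fin ℓ → V) where
  Adj X Y := Odd (Nat.card {i : Fin ℓ // G.Adj (X i) (Y i)})
  symm := ⟨fun X Y h => by
    have : {i : Fin ℓ // G.Adj (Y i) (X i)} = {i : Fin ℓ // G.Adj (X i) (Y i)} := by
      congr 1; funext i; exact propext (G.adj_comm _ _)
    rw [this]; exact h⟩
  loopless := ⟨fun X h => by
    simp at h⟩

/-- `f ℓ n k` is the clique number of the `ℓ`-th xor-power of the Kneser graph `KG(n,k)`. -/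
noncomputable def f (ℓ n k : ℕ) : ℕ := (xorPow (kneser n k) ℓ).cliqueNum

/-! ## The colouring of the Fano plane -/

/-- the labels (nonzero elements of `F_2^3`, coded in binary) occurring in each of the five
coordinates -/
def base : Fin 5 → Fin 3 → Fin 8 :=
  ![![2, 4, 4], ![2, 5, 6], ![3, 4, 7], ![3, 6, 6], ![5, 7, 7]]

lemma parity (z : Fin 8 → Bool) (h0 : z 0 = true)
    (hadd : ∀ P Q, z P = true → z Q = true → z (P ^^^ Q) = true)
    (hne : ∃ P, z P = false) :
    Odd (univ.filter (fun j : Fin 5 => ∀ i : Fin 3, z (base j i) = false)).card := by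
  revert h0 hadd hne
  revert z
  decide +kernel

/-- linear combination attached to a label -/
def val {m : ℕ} (v : Fin 3 → (Fin m → ZMod 2)) (P : Fin 8) : Fin m → ZMod 2 :=
  ∑ i : Fin 3, if P.1.testBit i.1 then v i else 0

lemma testBit_xor8 : ∀ (P Q : Fin 8) (i : Fin 3),
    (P ^^^ Q).1.testBit i.1 = xor (P.1.testBit i.1) (Q.1.testBit i.1) := by
  decide

lemma val_xor {m : ℕ} (v : Fin 3 → (Fin m → ZMod 2)) (P Q : Fin 8) :
    val v (P ^^^ Q) = val v P + val v Q := by
  unfold val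
  rw [← Finset.sum_add_distrib]
  refine Finset.sum_congr rfl (fun i _ => ?_)
  rw [testBit_xor8]
  have h2 : v i + v i = 0 := by
    funext j
    exact CharTwo.add_self_eq_zero (v i j)
  rcases P.1.testBit i.1 <;> rcases Q.1.testBit i.1 <;> simp [h2]

lemma val_sub {m : ℕ} (x y : Fin 3 → (Fin m → ZMod 2)) (P : Fin 8) :
    val (x - y) P = val x P - val y P := by
  unfold val
  rw [← Finset.sum_sub_distrib]
  refine Finset.sum_congr rfl (fun i _ => ?_)
  rcases P.1.testBit i.1 <;> simp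

lemma val_zero {m : ℕ} (v : Fin 3 → (Fin m → ZMod 2)) : val v 0 = 0 := by
  simp [val]

lemma val_ne {m : ℕ} (v : Fin 3 → (Fin m → ZMod 2)) (hv : v ≠ 0) : ∃ P, val v P ≠ 0 := by
  by_contra hcon
  push Not at hcon
  apply hv
  funext i
  have h1 := hcon 1
  have h2 := hcon 2
  have h4 := hcon 4
  fin_cases i
  · simpa [val, Fin.sum_univ_three, Nat.testBit] using h1
  · simpa [val, Fin.sum_univ_three, Nat.testBit] using h2
  · simpa [val, Fin.sum_univ_three, Nat.testBit] using h4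

/-- the parity property for vectors -/
lemma parity_val {m : ℕ} (v : Fin 3 → (Fin m → ZMod 2)) (hv : v ≠ 0) :
    Odd (univ.filter (fun j : Fin 5 => ∀ i : Fin 3, val v (base j i) ≠ 0)).card := by
  classical
  have := parity (fun P => decide (val v P = 0)) (by simp [val_zero]) (by
    intro P Q hP hQ
    simp only [decide_eq_true_eq] at hP hQ ⊢
    rw [val_xor, hP, hQ, add_zero]) (by
    obtain ⟨P, hP⟩ := val_ne v hv
    exact ⟨P, by simpa using hP⟩)
  simpa using this

/-! ## The clique -/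

/-- label of the `i`-th element of the `j`-th set, `i < k` (for `k ≥ 3`) -/
def lab (k : ℕ) (j : Fin 5) (i : Fin k) : Fin 8 :=
  base j (if h : i.1 < 3 then ⟨i.1, h⟩ else 2)

lemma forall_lab {k : ℕ} (hk : 3 ≤ k) (j : Fin 5) (p : Fin 8 → Prop) :
    (∀ i : Fin k, p (lab k j i)) ↔ ∀ i : Fin 3, p (base j i) := by
  constructor
  · intro h i
    have := h ⟨i.1, lt_of_lt_of_le i.2 hk⟩
    simpa [lab] using this
  · intro h i
    unfold lab
    exact h _

/-- the `j`-th set of the tuple attached to `x` -/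
def block {n k m : ℕ} (e : Fin k × (Fin m → ZMod 2) ↪ Fin n) (x : Fin 3 → (Fin m → ZMod 2))
    (j : Fin 5) : Finset (Fin n) :=
  univ.image (fun i : Fin k => e (i, val x (lab k j i)))

lemma block_card {n k m : ℕ} (e : Fin k × (Fin m → ZMod 2) ↪ Fin n)
    (x : Fin 3 → (Fin m → ZMod 2)) (j : Fin 5) : (block e x j).card = k := by
  unfold block
  rw [Finset.card_image_of_injective]
  · simp
  · intro i i' h
    have := e.injective h
    exact (Prod.mk.inj this).1

lemma block_disjoint {n k m : ℕ} (hk : 3 ≤ k) (e : Fin k × (Fin m → ZMod 2) ↪ Fin n)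
    (x y : Fin 3 → (Fin m → ZMod 2)) (j : Fin 5) :
    Disjoint (block e x j) (block e y j) ↔ ∀ i : Fin 3, val (x - y) (base j i) ≠ 0 := by
  rw [← forall_lab hk j (fun P => val (x - y) P ≠ 0)]
  rw [Finset.disjoint_left]
  unfold block
  constructor
  · intro h i h0
    rw [val_sub, sub_eq_zero] at h0
    refine h (a := e (i, val x (lab k j i))) ?_ ?_
    · exact Finset.mem_image_of_mem _ (mem_univ i)
    · rw [h0]
      exact Finset.mem_image_of_mem _ (mem_univ i)
  · intro h a ha hb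
    obtain ⟨i, -, rfl⟩ := Finset.mem_image.1 ha
    obtain ⟨i', -, hi'⟩ := Finset.mem_image.1 hb
    have h1 := e.injective hi'
    have h2 : i' = i := (Prod.mk.inj h1).1
    subst h2
    have h3 := (Prod.mk.inj h1).2
    apply h i'
    rw [val_sub, h3, sub_self]

/-- the tuple attached to `x` -/
def tup {n k m : ℕ} (e : Fin k × (Fin m → ZMod 2) ↪ Fin n) (x : Fin 3 → (Fin m → ZMod 2)) :
    Fin 5 → {X : Finset (Fin n) // X.card = k} :=
  fun j => ⟨block e x j, block_card e x j⟩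

lemma tup_adj {n k m : ℕ} (hk : 3 ≤ k) (e : Fin k × (Fin m → ZMod 2) ↪ Fin n)
    (x y : Fin 3 → (Fin m → ZMod 2)) (hxy : x ≠ y) :
    (xorPow (kneser n k) 5).Adj (tup e x) (tup e y) := by
  have hv : x - y ≠ 0 := sub_ne_zero.2 hxy
  have hp := parity_val (x - y) hv
  have key : ∀ j : Fin 5, (kneser n k).Adj (tup e x j) (tup e y j) ↔
      ∀ i : Fin 3, val (x - y) (base j i) ≠ 0 := by
    intro j
    rw [← block_disjoint hk e x y j]
    constructor
    · intro h
      exact h.2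
    · intro h
      refine ⟨?_, h⟩
      intro heq
      have h1 : block e x j = block e y j := congrArg Subtype.val heq
      rw [h1, disjoint_self] at h
      have h2 := block_card e y j
      rw [h] at h2
      simp at h2
      omega
  change Odd (Nat.card {j : Fin 5 // (kneser n k).Adj (tup e x j) (tup e y j)})
  have h1 : Nat.card {j : Fin 5 // (kneser n k).Adj (tup e x j) (tup e y j)} =
      (univ.filter (fun j : Fin 5 => ∀ i : Fin 3, val (x - y) (base j i) ≠ 0)).card := by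
    classical
    rw [Nat.card_congr (Equiv.subtypeEquivRight key), Nat.card_eq_fintype_card,
      Fintype.card_subtype]
  rw [h1]
  exact hp

lemma card_le_f {n k m : ℕ} (hk : 3 ≤ k) (hn : k * 2 ^ m ≤ n) : (2 ^ m) ^ 3 ≤ f 5 n k := by
  classical
  have hcard : Fintype.card (Fin k × (Fin m → ZMod 2)) ≤ Fintype.card (Fin n) := by
    simpa using hn
  obtain ⟨e⟩ := Function.Embedding.nonempty_of_card_le hcard
  have hinj : Function.Injective (tup e : (Fin 3 → (Fin m → ZMod 2)) → _) := by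
    intro x y h
    by_contra hne
    have := tup_adj hk e x y hne
    rw [h] at this
    exact (xorPow (kneser n k) 5).loopless.irrefl _ this
  let S : Finset (Fin 5 → {X : Finset (Fin n) // X.card = k}) := univ.image (tup e)
  have hS : S.card = (2 ^ m) ^ 3 := by
    rw [Finset.card_image_of_injective _ hinj]
    simp
  have hclique : (xorPow (kneser n k) 5).IsClique (S : Set _) := by
    intro X hX Y hY hXY
    obtain ⟨x, -, rfl⟩ := Finset.mem_image.1 (Finset.mem_coe.1 hX)
    obtain ⟨y, -, rfl⟩ := Finset.mem_image.1 (Finset.mem_coe.1 hY)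
    apply tup_adj hk e x y
    rintro rfl
    exact hXY rfl
  rw [← hS]
  exact hclique.card_le_cliqueNum

theorem lower_bound {k : ℕ} (hk : 3 ≤ k) (n : ℕ) : (n / (2 * k)) ^ 3 ≤ f 5 n k := by
  rcases Nat.lt_or_ge n k with h | h
  · rw [Nat.div_eq_of_lt (by omega)]
    simp
  · -- choose `m` with `2^m ≤ n/k < 2^(m+1)`
    have hq : n / k ≠ 0 := by
      have : 0 < n / k := Nat.div_pos h (by omega)
      omega
    set m := Nat.log 2 (n / k) with hm
    have h1 : 2 ^ m ≤ n / k := Nat.pow_log_le_self 2 hq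
    have h2 : n / k < 2 ^ (m + 1) := Nat.lt_pow_succ_log_self (by norm_num) _
    have h3 : k * 2 ^ m ≤ n := le_trans (Nat.mul_le_mul_left k h1) (Nat.mul_div_le n k)
    have h4 : n / (2 * k) ≤ 2 ^ m := by
      have h5 : n / (2 * k) = n / k / 2 := by
        rw [mul_comm, Nat.div_div_eq_div_mul]
      rw [h5]
      rw [pow_succ] at h2
      omega
    exact le_trans (Nat.pow_le_pow_left h4 3) (card_le_f hk h3)

/-- For `ℓ = 5` and every `k ≥ 3` the quotient `f 5 n k / n ^ ⌊log₂ 6⌋` is unbounded. -/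
theorem unbounded {k : ℕ} (hk : 3 ≤ k) (C : ℝ) :
    ∃ n₀ : ℕ, ∀ t : ℕ, n₀ ≤ t → C * ((2 * k * t : ℕ) : ℝ) ^ (Nat.log 2 (5 + 1)) <
      (f 5 (2 * k * t) k : ℝ) := by
  have hlog : Nat.log 2 (5 + 1) = 2 := by
    rw [Nat.log_eq_iff] <;> norm_num
  obtain ⟨t₀, ht₀⟩ := exists_nat_gt (max 0 (C * (2 * k : ℝ) ^ 2))
  refine ⟨t₀, fun t ht => ?_⟩
  have h1 := lower_bound hk (2 * k * t)
  rw [Nat.mul_div_cancel_left t (by omega : 0 < 2 * k)] at h1
  have h2 : ((t : ℝ)) ^ 3 ≤ (f 5 (2 * k * t) k : ℝ) := by exact_mod_cast h1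
  have h3 : (t₀ : ℝ) ≤ t := by exact_mod_cast ht
  have h4 : C * (2 * k : ℝ) ^ 2 < t := lt_of_le_of_lt (le_max_right _ _) (lt_of_lt_of_le ht₀ h3)
  have h5 : (0 : ℝ) < t := lt_of_le_of_lt (le_max_left _ _) (lt_of_lt_of_le ht₀ h3)
  rw [hlog]
  push_cast
  have h6 : C * (2 * (k : ℝ) * t) ^ 2 = (C * (2 * k : ℝ) ^ 2) * t ^ 2 := by ring
  rw [h6]
  have h7 : (C * (2 * k : ℝ) ^ 2) * (t : ℝ) ^ 2 < t * t ^ 2 :=
    mul_lt_mul_of_pos_right h4 (by positivity)
  calc _ < (t : ℝ) * t ^ 2 := h7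
    _ = (t : ℝ) ^ 3 := by ring
    _ ≤ _ := h2

/-- The conjecture of Q1: for every `ℓ ≥ 1` there is `k₀` such that for every fixed `k ≥ k₀`,
`f ℓ n k = Θ(n ^ ⌊log₂ (ℓ+1)⌋)` as `n → ∞`. -/
def Conjecture : Prop :=
  ∀ ℓ : ℕ, 1 ≤ ℓ → ∃ k₀ : ℕ, ∀ k : ℕ, k₀ ≤ k →
    (fun n : ℕ => (f ℓ n k : ℝ)) =Θ[Filter.atTop] (fun n : ℕ => (n : ℝ) ^ (Nat.log 2 (ℓ + 1)))

/-- **Q1 is false.**  For `ℓ = 5` (where the conjectured exponent is `⌊log₂ 6⌋ = 2`) one has
`f 5 n k ≥ ⌊n / (2k)⌋ ^ 3` for all `n` and all `k ≥ 3`; in particular for every `k ≥ 3` the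
quotient `f 5 n k / n ^ ⌊log₂ 6⌋` is unbounded (it exceeds any `C` at all large multiples of
`2k`), and the conjecture fails. -/
theorem result :
    (∀ k : ℕ, 3 ≤ k → ∀ n : ℕ, (n / (2 * k)) ^ 3 ≤ f 5 n k) ∧
    (∀ k : ℕ, 3 ≤ k → ∀ C : ℝ, ∃ n₀ : ℕ, ∀ t : ℕ, n₀ ≤ t →
      C * ((2 * k * t : ℕ) : ℝ) ^ (Nat.log 2 (5 + 1)) < (f 5 (2 * k * t) k : ℝ)) ∧
    ¬ Conjecture := by
  refine ⟨fun k hk n => lower_bound hk n, fun k hk C => unbounded hk C, ?_⟩
  intro hconj
  obtain ⟨k₀, hk₀⟩ := hconj 5 (by norm_num)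
  have h := (hk₀ (max k₀ 3) (le_max_left _ _)).1
  set k := max k₀ 3 with hkdef
  have hk : 3 ≤ k := le_max_right _ _
  obtain ⟨C, hC⟩ := h.bound
  rw [Filter.eventually_atTop] at hC
  obtain ⟨N, hN⟩ := hC
  obtain ⟨n₀, hn₀⟩ := unbounded hk C
  have h1 := hN (2 * k * (max N n₀)) (by
    calc N ≤ max N n₀ := le_max_left _ _
      _ = 1 * (max N n₀) := (one_mul _).symm
      _ ≤ 2 * k * (max N n₀) := Nat.mul_le_mul_right _ (by omega))
  have h2 := hn₀ (max N n₀) (le_max_right _ _)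
  rw [Real.norm_of_nonneg (by positivity), Real.norm_of_nonneg (by positivity)] at h1
  exact absurd h1 (not_le.2 h2)

end Pool.Agent.Results.MP_e3e024_co.XorKneserCubic
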